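import Pool.Agent.Helper55.GolodBridge

/-!
# A Cohen-Macaulay Golod quotient whose type is smaller than the height

Over every field `k` of characteristic zero there is a homogeneous ideal `I` of `k[x₀, x₁, x₂]`
contained in the square (even in the cube) of the maximal ideal, of height three, such that `S/I`
is Golod and Cohen-Macaulay (of depth zero and dimension zero) of type two.

The definitions used in the statement are in `Pool.Agent.Helper55.GolodDefs`.
-/

universe u

namespace Pool.Agent.Results.MP_5d828d_al.NegativeAnswer

open MvPolynomial Pool.Agent.Helper55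

/-- There is a homogeneous ideal `I` of `S = k[x₀, x₁, x₂]`, contained in the square of the
maximal ideal, of height three, with `S/I` Golod and Cohen-Macaulay of type two. -/
theorem result (k : Type u) [Field k] [CharZero k] :
    ∃ I : Ideal (MvPolynomial (Fin 3) k),
      (∀ f ∈ I, ∀ i : ℕ, homogeneousComponent i f ∈ I) ∧
      I ≤ idealOfVars (Fin 3) k ^ 2 ∧ I.height = 3 ∧ Golod k (xbar I) ∧
      IsCMOfType k (xbar I) 2 :=
  ⟨exI k, fun _ hf i => exI_homogeneous hf i,
    exI_le.trans (Ideal.pow_le_pow_right (by norm_num)), height_exI, golod_iff.mpr isGolod_ex,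
    isCMOfType_ex⟩

end Pool.Agent.Results.MP_5d828d_al.NegativeAnswer
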